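import Pool.Agent.WSG.Final

/-!
# Weak and split F-regularity agree for graded rings over a discrete valuation ring whose generic
fibre has finite F-representation type

`V` is a discrete valuation ring of characteristic `p` with uniformiser `z`, `R` an `F`-finite domain,
`ℕ`-graded with `R_0 = V`, finite over a homogeneous polynomial subring. Suppose that `R[1/z]` has
finite F-representation type, or, more generally, that for every submodule `N` of a free module `R^r`
the `z`-power torsion of `R^r / N^{[q]}` is killed by `z^(C q)`, with `C` independent of `q = p ^ e`.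
Then `R` is weakly F-regular iff it is split F-regular, iff its localization at the vertex
`(z) + R_+` is weakly F-regular.
-/

set_option autoImplicit false

namespace Pool.Agent.Results.MP_0796a2_al.GenericFFRT

universe u v

open MvPolynomial Pool.Agent.WSF Pool.Agent.WSG

theorem result (p : ℕ) [Fact p.Prime] (V : Type u) (R : Type v) [CommRing V] [IsDomain V]
    [IsDiscreteValuationRing V] [CommRing R] [IsDomain R] [CharP R p] [Algebra V R] (m : ℕ)
    [Algebra (MvPolynomial (Fin m) V) R] [IsScalarTower V (MvPolynomial (Fin m) V) R]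
    [Module.Finite (MvPolynomial (Fin m) V) R]
    (z : V) (hz : Irreducible z)
    (hinj : Function.Injective (algebraMap (MvPolynomial (Fin m) V) R))
    (hF : FFinite p R)
    (𝒜 : ℕ → Submodule V R) [GradedAlgebra 𝒜] (d : Fin m → ℕ)
    (h0 : ∀ x ∈ 𝒜 0, ∃ v : V, algebraMap V R v = x) (hd : ∀ i, 0 < d i)
    (hX : ∀ i, algebraMap (MvPolynomial (Fin m) V) R (X i) ∈ 𝒜 (d i))
    (h : HasFFRT p (Localization.Away (algebraMap V R z)) ∨
      ∀ (r : ℕ) (N : Submodule R (Fin r → R)), ∃ C : ℕ, ∀ (e k : ℕ) (x : Fin r → R),
        algebraMap V R z ^ k • x ∈ brk N (p ^ e) →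
        algebraMap V R z ^ (C * p ^ e) • x ∈ brk N (p ^ e)) :
    ∃ _h : (mm 𝒜 z).IsPrime, List.TFAE [WeaklyFRegular p (Localization.AtPrime (mm 𝒜 z)),
      WeaklyFRegular p R, SplitFRegular p R] := by
  rcases h with h | h
  · exact final p V R m z hz hinj hF 𝒜 d h0 hd hX h
  · exact finalLC p V R m z hz hinj hF 𝒜 d h0 hd hX h

end Pool.Agent.Results.MP_0796a2_al.GenericFFRT
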