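import Pool.Agent.WSU.Final3

/-!
# Weak and split F-regularity: pointwise criteria away from the closed points of the base

Let `V` be a regular ring, `A = V[X_1, ..., X_m]`, `R` an `F`-finite domain of characteristic `p` which
is module-finite over `A ⊆ R` and `ℕ`-graded, with `V ⊆ R_0` and the `X_i` homogeneous of positive
degree. (For `m = 0` the ring `R` is any `F`-finite domain which is module-finite over `V`; this includes
all affine domains over an `F`-finite field, by Noether normalization, and all complete local domains,
by Cohen's theorem.) Suppose that for every prime `P` of `R` whose contraction to `V` is not a maximal ideal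
one of the following holds:

* (a) there is a finitely generated `R_P`-module `T` such that all `F^e_* R_P` are direct summands of
  finite direct sums of copies of `T` (`FinF`; for example if `R_P` has finite F-representation type,
  `Pool.Agent.WSU.finF_of_ffrt`);
* (b) `R_P` is Gorenstein: the trace ideal of `Hom_A(R, A)` is not contained in `P` (`TrOm`);
* (c) `R_P` is `ℚ`-Gorenstein (`QGy`), and `m = 0`, or the fibres over the closed points of `V` are
  Gorenstein in codimension one (`SFA`), or `R_Q` is Gorenstein for all primes `Q` whose contraction to `V`
  has height at most one (`BC`).

Then the following are equivalent: `R_M` is weakly F-regular for all maximal ideals `M` which contain all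
elements of positive degree; `R` is weakly F-regular; `R` is split F-regular.

Idea of the proof. First let `V` and `R_0` be local, `M` the ideal generated by the nonunits of `R_0` and the
elements of positive degree. `R` is free over `A` (colon capturing). A system of parameters `x` of `V` is chosen
such that the trace ideal contains the last two `x_i` (`m = 0`: `R` is normal, so the trace ideal has height
at least two), and all `V/(x^t)` are Gorenstein (exchange of one parameter after the other). For every
fixed ideal `(x^t, X^s)` weak F-regularity gives `F^e_* R → R/(x^t, X^s)` which maps a given `c` outside `M`.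
At each prime `P` of the kind (a), (b), (c) there is `y ∉ P` such that, uniformly in `e`, linear maps
`F^e_* R → R/(x_1^(t_1), ..., x_k^c)` can be lifted to `R/(x_1^(t_1), ..., x_(k-1)^(t_(k-1)))` after
multiplication by `y` and by a fixed element `δ ≠ 0` of `F^e_* R` (for (c): such maps are functionals on
`F^e_* ω^(q)`, and the multiplication by `y^q δ` on `ω^(q)` factors through `R`). So a power of `x_k` has this
property. The graded variables are removed by degree reasons. In general this is applied over the
localization of `V` at the contraction `n` of `M`: there `R_0` need not be local, but weak F-regularity is used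
only for homogeneous ideals, for which the maximal ideals `M ⊇ R_+` suffice, and the maps obtained descend
from `R_n` to `R`; so every homogeneous `c ≠ 0` is mapped outside each `M ⊇ R_+` and then splits.

Architect helper5; modules by helper1, helper5, helper7, helper8, helper9, helper12, helper16, helper19,
helper20, helper22, helper26, helper30, helper33, helper43, helper44, helper45, helper48, helper53,
helper54, helper56, helper58, helper62, helper64, helper66, helper69, helper71, helper72, helper78,
helper80, helper83, helper85, helper87, helper89, helper90, helper91, helper92, helper95, helper96,
helper98, helper99, and by the authors of the earlier projects WSF, WSG and WSP.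
-/

set_option autoImplicit false

namespace Pool.Agent.Results.MP_0796a2_al.PointwiseCriteria

universe u v

open MvPolynomial Pool.Agent.WSF Pool.Agent.WSP Pool.Agent.WSU

/-- Weak and split F-regularity agree if all points which do not lie over closed points of `V` are of
finite F-type, Gorenstein or `ℚ`-Gorenstein. -/
theorem result (p : ℕ) [Fact p.Prime] (V : Type u) (R : Type v) [CommRing V]
    [IsRegularRing V] [CommRing R] [IsDomain R] [CharP R p] [Algebra V R] (m : ℕ)
    [Algebra (Pol V m) R] [IsScalarTower V (Pol V m) R] [Module.Finite (Pol V m) R]
    (hinj : Function.Injective (algebraMap (Pol V m) R)) (hF : FFinite p R)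
    (𝒜 : ℕ → Submodule V R) [GradedAlgebra 𝒜] (w : Fin m → ℕ) (hw : ∀ i, 0 < w i)
    (hX : ∀ i, algebraMap (Pol V m) R (X i) ∈ 𝒜 (w i))
    (h : ∀ (P : Ideal R) [P.IsPrime], ¬ (P.comap (algebraMap V R)).IsMaximal →
      FinF p (Localization.AtPrime P) ∨ (∃ y, y ∉ P ∧ TrOm (Pol V m) R y) ∨
      ((m = 0 ∨ SFA V R m w ∨ BC V R m) ∧ ∃ y, y ∉ P ∧ QGy (Pol V m) R y)) :
    List.TFAE [∀ (M : Ideal R) [M.IsMaximal], Irrel 𝒜 M →
        WeaklyFRegular p (Localization.AtPrime M),
      WeaklyFRegular p R, SplitFRegular p R] :=
  t_MA4' p V R m hinj hF 𝒜 w hw hX h

end Pool.Agent.Results.MP_0796a2_al.PointwiseCriteria
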